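import Mathlib

/-!
# Multicolour threshold-2 bootstrap dynamics: no powers suffice once `κ ≥ 3`

The states are `0, 1, …, κ`.  A site in state `0` with three neighbours initially in state
`2` can never see two neighbours in state `1`, hence it stays in state `0` forever.  Such
frozen sites have a density bounded below in terms of `p₂` alone, so when `p_κ` is tiny
compared with `p₂` the origin is surrounded by a square with four frozen corners and no
initial site in state `κ`; nothing inside such a square ever reaches state `κ`.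
-/

open MeasureTheory ProbabilityTheory Filter Topology

namespace Pool.Agent.Results.MP_3d955a_pr.NoPowersFromThree

/-- Configurations: every site of `ℤ²` carries a state in `{0, 1, …, κ}`. -/
abbrev Config (κ : ℕ) := ℤ × ℤ → Fin (κ + 1)

/-- The four nearest neighbours of a site of `ℤ²`. -/
def nbrs (x : ℤ × ℤ) : Finset (ℤ × ℤ) :=
  {(x.1 + 1, x.2), (x.1 - 1, x.2), (x.1, x.2 + 1), (x.1, x.2 - 1)}

/-- `numIn ξ j x` is the number of nearest neighbours of `x` whose state in `ξ` is `j`. -/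
def numIn {κ : ℕ} (ξ : Config κ) (j : ℕ) (x : ℤ × ℤ) : ℕ :=
  ((nbrs x).filter fun y => (ξ y : ℕ) = j).card

/-- One synchronous update: a site in state `i < κ` moves to state `i + 1` when at least two
of its neighbours are in state `i + 1`, and keeps its state otherwise. -/
def step {κ : ℕ} (ξ : Config κ) : Config κ := fun x =>
  if h : (ξ x : ℕ) < κ ∧ 2 ≤ numIn ξ ((ξ x : ℕ) + 1) x then ⟨(ξ x : ℕ) + 1, by omega⟩ else ξ x

/-- The configuration `ξ_t` started from `ξ₀`. -/
def evolve {κ : ℕ} (ξ₀ : Config κ) (t : ℕ) : Config κ := step^[t] ξ₀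

/-- A parameter vector: positive numbers `p 0, …, p κ` with sum `1`. -/
structure ParamVec (κ : ℕ) where
  /-- `p i` is the initial density of state `i`, for `i = 0, …, κ`. -/
  p : ℕ → ℝ
  pos : ∀ i, i ≤ κ → 0 < p i
  sum_one : ∑ i ∈ Finset.range (κ + 1), p i = 1

/-- The law of the initial state of one site. -/
noncomputable def siteLaw {κ : ℕ} (v : ParamVec κ) : Measure (Fin (κ + 1)) :=
  ∑ i : Fin (κ + 1), ENNReal.ofReal (v.p i) • Measure.dirac i

/-- The law of the initial configuration: the product measure over `ℤ²`. -/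
noncomputable def initLaw {κ : ℕ} (v : ParamVec κ) : Measure (Config κ) :=
  Measure.infinitePi fun _ : ℤ × ℤ => siteLaw v

/-- The event that the origin is eventually in state `κ`. -/
def originTerminal (κ : ℕ) : Set (Config κ) :=
  {ξ₀ | ∃ t : ℕ, (evolve ξ₀ t (0, 0) : ℕ) = κ}

/-! ### The dynamics -/

section Dynamics

variable {κ : ℕ}

lemma le_step (ξ : Config κ) (x : ℤ × ℤ) : (ξ x : ℕ) ≤ (step ξ x : ℕ) := by
  unfold step
  split_ifs with h
  · simp
  · exact le_rfl

lemma evolve_zero (ξ₀ : Config κ) : evolve ξ₀ 0 = ξ₀ := rfl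

lemma evolve_succ (ξ₀ : Config κ) (t : ℕ) : evolve ξ₀ (t + 1) = step (evolve ξ₀ t) := by
  unfold evolve
  rw [Function.iterate_succ_apply']

lemma le_evolve (ξ₀ : Config κ) (t : ℕ) (x : ℤ × ℤ) : (ξ₀ x : ℕ) ≤ (evolve ξ₀ t x : ℕ) := by
  induction t with
  | zero => exact le_rfl
  | succ t ih => rw [evolve_succ]; exact ih.trans (le_step _ _)

/-- The (deterministic) event that `c` is a frozen zero: `c` has initial state `0` and its
left, right and upper neighbours have initial state `2`. -/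
def Frozen (ξ₀ : Config κ) (c : ℤ × ℤ) : Prop :=
  (ξ₀ c : ℕ) = 0 ∧ (ξ₀ (c.1 + 1, c.2) : ℕ) = 2 ∧ (ξ₀ (c.1 - 1, c.2) : ℕ) = 2 ∧
    (ξ₀ (c.1, c.2 + 1) : ℕ) = 2

lemma frozen_stays {ξ₀ : Config κ} {c : ℤ × ℤ} (h : Frozen ξ₀ c) (t : ℕ) :
    (evolve ξ₀ t c : ℕ) = 0 := by
  induction t with
  | zero => exact h.1
  | succ t ih =>
    rw [evolve_succ]
    unfold step
    rw [dif_neg]
    · exact ih
    · rintro ⟨-, h2⟩
      rw [ih] at h2
      have hlt : 1 < numIn (evolve ξ₀ t) (0 + 1) c := h2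
      unfold numIn at hlt
      rw [Finset.one_lt_card] at hlt
      obtain ⟨a, ha, b, hb, hab⟩ := hlt
      have key : ∀ y ∈ (nbrs c).filter (fun y => (evolve ξ₀ t y : ℕ) = 0 + 1),
          y = (c.1, c.2 - 1) := by
        intro y hy
        rw [Finset.mem_filter] at hy
        obtain ⟨hy1, hy2⟩ := hy
        have h3 := le_evolve ξ₀ t y
        simp only [nbrs, Finset.mem_insert, Finset.mem_singleton] at hy1
        rcases hy1 with rfl | rfl | rfl | rfl
        · have := h.2.1; omega
        · have := h.2.2.1; omega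
        · have := h.2.2.2; omega
        · rfl
      exact hab ((key a ha).trans (key b hb).symm)

/-- The square of radius `m` around the origin. -/
def InBox (m : ℤ) (x : ℤ × ℤ) : Prop := -m ≤ x.1 ∧ x.1 ≤ m ∧ -m ≤ x.2 ∧ x.2 ≤ m

/-- If the four corners of the square are frozen and the square contains no site of initial
state `κ`, then no site of the square ever gets state `κ`. -/
lemma box_protected (hκ : 1 ≤ κ) {ξ₀ : Config κ} {m : ℤ} (hm : 1 ≤ m)
    (h1 : Frozen ξ₀ (m, m)) (h2 : Frozen ξ₀ (m, -m)) (h3 : Frozen ξ₀ (-m, m))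
    (h4 : Frozen ξ₀ (-m, -m)) (hno : ∀ x, InBox m x → (ξ₀ x : ℕ) ≠ κ) (t : ℕ) :
    ∀ x, InBox m x → (evolve ξ₀ t x : ℕ) ≠ κ := by
  induction t with
  | zero => exact hno
  | succ t ih =>
    rintro ⟨a, b⟩ hx heq
    have hne := ih (a, b) hx
    have hcorner : ¬ ((a = m ∨ a = -m) ∧ (b = m ∨ b = -m)) := by
      rintro ⟨ha, hb⟩
      have h0 : (evolve ξ₀ (t + 1) (a, b) : ℕ) = 0 := by
        rcases ha with rfl | rfl <;> rcases hb with rfl | rfl
        · exact frozen_stays h1 _
        · exact frozen_stays h2 _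
        · exact frozen_stays h3 _
        · exact frozen_stays h4 _
      omega
    rw [evolve_succ] at heq
    unfold step at heq
    split_ifs at heq with hc
    · simp only at heq
      rw [heq] at hc
      have hlt : 1 < numIn (evolve ξ₀ t) κ (a, b) := hc.2
      unfold numIn at hlt
      rw [Finset.one_lt_card] at hlt
      obtain ⟨y, hy, z, hz, hyz⟩ := hlt
      rw [Finset.mem_filter] at hy hz
      have hy' : ¬ InBox m y := fun hh => ih y hh hy.2
      have hz' : ¬ InBox m z := fun hh => ih z hh hz.2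
      have hy1 := hy.1
      have hz1 := hz.1
      unfold InBox at hx hy' hz'
      simp only [nbrs, Finset.mem_insert, Finset.mem_singleton] at hy1 hz1
      simp only at hx
      rcases hy1 with rfl | rfl | rfl | rfl <;> rcases hz1 with rfl | rfl | rfl | rfl <;>
        simp only at hy' hz' <;>
        first
          | exact hyz rfl
          | omega
    · exact hne heq

end Dynamics

/-! ### The initial law -/

section Probability

variable {κ : ℕ}

lemma ParamVec.le_one (v : ParamVec κ) {i : ℕ} (hi : i ≤ κ) : v.p i ≤ 1 := by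
  rw [← v.sum_one]
  exact Finset.single_le_sum (f := v.p)
    (fun j hj => (v.pos j (by simpa [Nat.lt_succ_iff] using hj)).le)
    (by simpa [Nat.lt_succ_iff] using hi)

lemma siteLaw_apply (v : ParamVec κ) (s : Set (Fin (κ + 1))) :
    siteLaw v s = ∑ i : Fin (κ + 1), ENNReal.ofReal (v.p i) * s.indicator 1 i := by
  unfold siteLaw
  rw [Measure.finsetSum_apply]
  refine Finset.sum_congr rfl fun i _ => ?_
  rw [Measure.smul_apply, Measure.dirac_apply' _ (Set.toFinite s).measurableSet, smul_eq_mul]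

instance instProbSite (v : ParamVec κ) : IsProbabilityMeasure (siteLaw v) := by
  constructor
  rw [siteLaw_apply]
  simp only [Set.indicator_univ, Pi.one_apply, mul_one]
  rw [← ENNReal.ofReal_sum_of_nonneg
    (fun (i : Fin (κ + 1)) _ => (v.pos (i : ℕ) (Nat.lt_succ_iff.mp i.2)).le)]
  rw [Fin.sum_univ_eq_sum_range (fun i => v.p i) (κ + 1), v.sum_one, ENNReal.ofReal_one]

lemma siteLaw_eq (v : ParamVec κ) {j : ℕ} (hj : j ≤ κ) :
    siteLaw v {s | (s : ℕ) = j} = ENNReal.ofReal (v.p j) := by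
  rw [siteLaw_apply, Finset.sum_eq_single (⟨j, by omega⟩ : Fin (κ + 1))]
  · simp
  · intro b _ hb
    have : b ∉ {s : Fin (κ + 1) | (s : ℕ) = j} := by
      intro h
      exact hb (Fin.ext h)
    simp [this]
  · intro h
    exact absurd (Finset.mem_univ _) h

instance instProbInit (v : ParamVec κ) : IsProbabilityMeasure (initLaw v) := by
  unfold initLaw; infer_instance

lemma measSet (s : Set (Fin (κ + 1))) : MeasurableSet s := (Set.toFinite s).measurableSet

/-- Two events depending on disjoint finite sets of sites are independent. -/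
lemma indep_of_disjoint (v : ParamVec κ) (S T : Finset (ℤ × ℤ)) (hST : Disjoint S T)
    (A : Set (S → Fin (κ + 1))) (B : Set (T → Fin (κ + 1))) :
    initLaw v ({ξ | (fun i : S => ξ i) ∈ A} ∩ {ξ | (fun i : T => ξ i) ∈ B}) =
      initLaw v {ξ | (fun i : S => ξ i) ∈ A} * initLaw v {ξ | (fun i : T => ξ i) ∈ B} := by
  have h1 : iIndepFun (fun (i : ℤ × ℤ) (ξ : Config κ) => ξ i) (initLaw v) := by
    have := iIndepFun_infinitePi (P := fun _ : ℤ × ℤ => siteLaw v)
      (X := fun (_ : ℤ × ℤ) (s : Fin (κ + 1)) => s) (fun _ => measurable_id)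
    exact this
  have h2 := h1.indepFun_finset S T hST (fun i => measurable_pi_apply i)
  exact h2.measure_inter_preimage_eq_mul A B (Set.toFinite A).measurableSet
    (Set.toFinite B).measurableSet

/-- The corners of the `j`-th square, of radius `3 (j + 1)`. -/
def corners (j : ℕ) : Finset (ℤ × ℤ) :=
  {(3 * ((j : ℤ) + 1), 3 * ((j : ℤ) + 1)), (3 * ((j : ℤ) + 1), -(3 * ((j : ℤ) + 1))),
    (-(3 * ((j : ℤ) + 1)), 3 * ((j : ℤ) + 1)), (-(3 * ((j : ℤ) + 1)), -(3 * ((j : ℤ) + 1)))}

/-- A corner together with its right, left and upper neighbours. -/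
def star (c : ℤ × ℤ) : Finset (ℤ × ℤ) := {c, (c.1 + 1, c.2), (c.1 - 1, c.2), (c.1, c.2 + 1)}

/-- The at most sixteen sites on which the `j`-th good event depends. -/
def supp (j : ℕ) : Finset (ℤ × ℤ) := (corners j).biUnion star

/-- The state prescribed at a site by the `j`-th good event. -/
def target (j : ℕ) (y : ℤ × ℤ) : ℕ := if y ∈ corners j then 0 else 2

/-- The `j`-th good event: all four corners of the `j`-th square are frozen. -/
def good (κ j : ℕ) : Set (Config κ) := {ξ | ∀ y ∈ supp j, (ξ y : ℕ) = target j y}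

lemma supp_abs {j : ℕ} {y : ℤ × ℤ} (hy : y ∈ supp j) :
    3 * ((j : ℤ) + 1) - 1 ≤ |y.1| ∧ |y.1| ≤ 3 * ((j : ℤ) + 1) + 1 := by
  unfold supp corners star at hy
  simp only [Finset.mem_biUnion, Finset.mem_insert, Finset.mem_singleton] at hy
  obtain ⟨c, hc, hy⟩ := hy
  have h1 : c.1 = 3 * ((j : ℤ) + 1) ∨ c.1 = -(3 * ((j : ℤ) + 1)) := by
    rcases hc with rfl | rfl | rfl | rfl <;> simp
  have h2 : y.1 = c.1 ∨ y.1 = c.1 + 1 ∨ y.1 = c.1 - 1 := by
    rcases hy with rfl | rfl | rfl | rfl <;> simp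
  rcases abs_cases y.1 with ⟨h3, h4⟩ | ⟨h3, h4⟩ <;> rw [h3] <;>
    rcases h1 with h1 | h1 <;> rcases h2 with h2 | h2 | h2 <;> omega

lemma supp_disjoint {i j : ℕ} (hij : i ≠ j) : Disjoint (supp i) (supp j) := by
  rw [Finset.disjoint_left]
  intro y hi hj
  have h1 := supp_abs hi
  have h2 := supp_abs hj
  omega

lemma supp_card (j : ℕ) : (supp j).card ≤ 16 := by
  unfold supp
  refine (Finset.card_biUnion_le_card_mul _ _ 4 ?_).trans ?_
  · intro c _
    exact Finset.card_le_four
  · have : (corners j).card ≤ 4 := Finset.card_le_four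
    omega

lemma frozen_of_good {j : ℕ} {ξ : Config κ} (h : ξ ∈ good κ j) {c : ℤ × ℤ}
    (hc : c ∈ corners j) : Frozen ξ c := by
  have hs : ∀ y ∈ star c, y ∈ supp j := fun y hy => Finset.mem_biUnion.mpr ⟨c, hc, hy⟩
  have hcor : ∀ y ∈ corners j, ((y.1 = 3 * ((j : ℤ) + 1) ∨ y.1 = -(3 * ((j : ℤ) + 1))) ∧
      (y.2 = 3 * ((j : ℤ) + 1) ∨ y.2 = -(3 * ((j : ℤ) + 1)))) := by
    intro y hy
    unfold corners at hy
    simp only [Finset.mem_insert, Finset.mem_singleton] at hy
    rcases hy with rfl | rfl | rfl | rfl <;> simp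
  have hcc := hcor c hc
  refine ⟨?_, ?_, ?_, ?_⟩
  · rw [h c (hs c (by simp [star]))]
    simp [target, hc]
  · rw [h (c.1 + 1, c.2) (hs _ (by simp [star]))]
    have : (c.1 + 1, c.2) ∉ corners j := by
      intro hh
      have := hcor _ hh
      simp only at this
      omega
    simp [target, this]
  · rw [h (c.1 - 1, c.2) (hs _ (by simp [star]))]
    have : (c.1 - 1, c.2) ∉ corners j := by
      intro hh
      have := hcor _ hh
      simp only at this
      omega
    simp [target, this]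
  · rw [h (c.1, c.2 + 1) (hs _ (by simp [star]))]
    have : (c.1, c.2 + 1) ∉ corners j := by
      intro hh
      have := hcor _ hh
      simp only at this
      omega
    simp [target, this]

/-- The good event has probability at least `p₂ ^ 16`. -/
lemma good_prob (v : ParamVec κ) (hκ : 2 ≤ κ) (h02 : v.p 2 ≤ v.p 0) (j : ℕ) :
    ENNReal.ofReal (v.p 2 ^ 16) ≤ initLaw v (good κ j) := by
  have h1 : good κ j = Set.pi (supp j) (fun y => {s : Fin (κ + 1) | (s : ℕ) = target j y}) := by
    ext ξ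
    simp [good, Set.mem_pi]
  have hp2 : 0 < v.p 2 := v.pos 2 hκ
  rw [h1, initLaw, Measure.infinitePi_pi _ (fun _ _ => measSet _)]
  have h2 : ∀ y ∈ supp j, ENNReal.ofReal (v.p 2) ≤
      siteLaw v {s : Fin (κ + 1) | (s : ℕ) = target j y} := by
    intro y _
    unfold target
    split_ifs
    · rw [siteLaw_eq v (Nat.zero_le _)]
      exact ENNReal.ofReal_le_ofReal h02
    · rw [siteLaw_eq v hκ]
  calc ENNReal.ofReal (v.p 2 ^ 16) = ENNReal.ofReal (v.p 2) ^ 16 := by
        rw [ENNReal.ofReal_pow hp2.le]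
    _ ≤ ENNReal.ofReal (v.p 2) ^ (supp j).card := by
        refine pow_le_pow_right_of_le_one' ?_ (supp_card j)
        rw [ENNReal.ofReal_le_one]
        exact v.le_one hκ
    _ ≤ ∏ y ∈ supp j, siteLaw v {s : Fin (κ + 1) | (s : ℕ) = target j y} := by
        rw [← Finset.prod_const]
        exact Finset.prod_le_prod' h2

/-- No good event among the first `J`. -/
def bad (κ J : ℕ) : Set (Config κ) := {ξ | ∀ j < J, ξ ∉ good κ j}

lemma good_local (j : ℕ) : good κ j =
    {ξ | (fun i : supp j => ξ i) ∈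
      {η : supp j → Fin (κ + 1) | ∀ y : supp j, (η y : ℕ) = target j y}} := by
  ext ξ
  simp [good]

lemma bad_local (J : ℕ) : bad κ J =
    {ξ | (fun i : ((Finset.range J).biUnion supp : Finset (ℤ × ℤ)) => ξ i) ∈
      {η : ((Finset.range J).biUnion supp : Finset (ℤ × ℤ)) → Fin (κ + 1) |
        ∀ j (hj : j < J), ¬ ∀ y (hy : y ∈ supp j),
          (η ⟨y, Finset.mem_biUnion.mpr ⟨j, Finset.mem_range.mpr hj, hy⟩⟩ : ℕ) = target j y}} := by
  ext ξ
  simp [bad, good]

lemma bad_prob (v : ParamVec κ) (hκ : 2 ≤ κ) (h02 : v.p 2 ≤ v.p 0) (J : ℕ) :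
    initLaw v (bad κ J) ≤ ENNReal.ofReal (1 - v.p 2 ^ 16) ^ J := by
  induction J with
  | zero => simpa using prob_le_one
  | succ J ih =>
    have h1 : bad κ (J + 1) = bad κ J ∩ (good κ J)ᶜ := by
      ext ξ
      simp only [bad, Set.mem_ofPred_eq, Set.mem_inter_iff, Set.mem_compl_iff]
      constructor
      · intro h
        exact ⟨fun j hj => h j (by omega), h J (by omega)⟩
      · rintro ⟨h2, h3⟩ j hj
        rcases Nat.lt_succ_iff_lt_or_eq.mp hj with h4 | rfl
        · exact h2 j h4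
        · exact h3
    have hdisj : Disjoint ((Finset.range J).biUnion supp) (supp J) := by
      rw [Finset.disjoint_biUnion_left]
      intro i hi
      exact supp_disjoint (by have := Finset.mem_range.mp hi; omega)
    have h2 : initLaw v (bad κ J ∩ (good κ J)ᶜ) =
        initLaw v (bad κ J) * initLaw v ((good κ J)ᶜ) := by
      have h3 : (good κ J)ᶜ = {ξ | (fun i : supp J => ξ i) ∈
          {η : supp J → Fin (κ + 1) | ∀ y : supp J, (η y : ℕ) = target J y}ᶜ} := by
        rw [good_local]; rfl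
      rw [h3, bad_local]
      exact indep_of_disjoint v _ _ hdisj _ _
    have hmeas : MeasurableSet (good κ J) := by
      have : good κ J =
          Set.pi (supp J) (fun y => {s : Fin (κ + 1) | (s : ℕ) = target J y}) := by
        ext ξ
        simp [good, Set.mem_pi]
      rw [this]
      exact MeasurableSet.pi (Finset.countable_toSet _) (fun _ _ => measSet _)
    have h4 : initLaw v ((good κ J)ᶜ) ≤ ENNReal.ofReal (1 - v.p 2 ^ 16) := by
      rw [prob_compl_eq_one_sub hmeas, ENNReal.ofReal_sub _ (by have := v.pos 2 hκ; positivity),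
        ENNReal.ofReal_one]
      exact tsub_le_tsub_left (good_prob v hκ h02 J) 1
    rw [h1, h2, pow_succ]
    exact mul_le_mul' ih h4

/-- All sites of the square of radius `m`. -/
noncomputable def boxFin (m : ℕ) : Finset (ℤ × ℤ) := Finset.Icc (-(m : ℤ)) m ×ˢ Finset.Icc (-(m : ℤ)) m

lemma boxFin_card (m : ℕ) : (boxFin m).card = (2 * m + 1) ^ 2 := by
  unfold boxFin
  rw [Finset.card_product, Int.card_Icc, sq]
  congr 1 <;> omega

/-- Some site of the square of radius `m` starts in state `κ`. -/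
def seeded (κ m : ℕ) : Set (Config κ) := {ξ | ∃ x ∈ boxFin m, (ξ x : ℕ) = κ}

lemma seeded_prob (v : ParamVec κ) (m : ℕ) :
    initLaw v (seeded κ m) ≤ ENNReal.ofReal ((2 * (m : ℝ) + 1) ^ 2 * v.p κ) := by
  have h1 : seeded κ m = ⋃ x ∈ boxFin m, {ξ : Config κ | (ξ x : ℕ) = κ} := by
    ext ξ
    simp [seeded]
  rw [h1]
  refine (measure_biUnion_finset_le _ _).trans ?_
  have h2 : ∀ x ∈ boxFin m, initLaw v {ξ : Config κ | (ξ x : ℕ) = κ} =
      ENNReal.ofReal (v.p κ) := by
    intro x _
    have h3 : {ξ : Config κ | (ξ x : ℕ) = κ} =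
        Set.pi (({x} : Finset (ℤ × ℤ)) : Set (ℤ × ℤ))
          (fun _ => {s : Fin (κ + 1) | (s : ℕ) = κ}) := by
      ext ξ
      simp
    rw [h3, initLaw, Measure.infinitePi_pi _ (fun _ _ => measSet _)]
    simp only [Finset.prod_singleton]
    exact siteLaw_eq v le_rfl
  rw [Finset.sum_congr rfl h2, Finset.sum_const, boxFin_card, nsmul_eq_mul]
  rw [ENNReal.ofReal_mul (by positivity)]
  apply le_of_eq
  congr 1
  rw [ENNReal.ofReal_pow (by positivity)]
  push_cast
  congr 1
  rw [ENNReal.ofReal_add (by positivity) (by norm_num), ENNReal.ofReal_mul (by norm_num)]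
  simp

/-- The key estimate, for every `J`: the probability that the origin is eventually in state
`κ` is at most `(1 - p₂ ^ 16) ^ J + (6 J + 1) ^ 2 p_κ`. -/
lemma key_bound (v : ParamVec κ) (hκ : 3 ≤ κ) (h02 : v.p 2 ≤ v.p 0) (J : ℕ) :
    (initLaw v).real (originTerminal κ) ≤
      (1 - v.p 2 ^ 16) ^ J + (6 * (J : ℝ) + 1) ^ 2 * v.p κ := by
  have hp2 := v.pos 2 (by omega)
  have hp21 := v.le_one (show 2 ≤ κ by omega)
  have hsub : originTerminal κ ⊆ bad κ J ∪ seeded κ (3 * J) := by
    rintro ξ ⟨t, ht⟩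
    by_contra hcon
    rw [Set.mem_union, not_or] at hcon
    obtain ⟨h1, h2⟩ := hcon
    simp only [bad, Set.mem_ofPred_eq, not_forall, not_not] at h1
    obtain ⟨j, hj, hgood⟩ := h1
    simp only [seeded, Set.mem_ofPred_eq, not_exists, not_and] at h2
    have hfr : ∀ c ∈ corners j, Frozen ξ c := fun c hc => frozen_of_good hgood hc
    refine box_protected (m := 3 * ((j : ℤ) + 1)) (by omega) (by omega)
      (hfr _ (by simp [corners])) (hfr _ (by simp [corners])) (hfr _ (by simp [corners]))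
      (hfr _ (by simp [corners])) ?_ t (0, 0) ?_ ht
    · intro x hx
      refine h2 x ?_
      unfold InBox at hx
      unfold boxFin
      rw [Finset.mem_product, Finset.mem_Icc, Finset.mem_Icc]
      push_cast
      omega
    · unfold InBox
      simp only
      omega
  have h3 : initLaw v (originTerminal κ) ≤
      ENNReal.ofReal ((1 - v.p 2 ^ 16) ^ J + (6 * (J : ℝ) + 1) ^ 2 * v.p κ) := by
    have h4 : (0 : ℝ) ≤ 1 - v.p 2 ^ 16 := by
      have : v.p 2 ^ 16 ≤ 1 := pow_le_one₀ hp2.le hp21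
      linarith
    have hpk := v.pos κ le_rfl
    calc initLaw v (originTerminal κ) ≤ initLaw v (bad κ J ∪ seeded κ (3 * J)) :=
          measure_mono hsub
      _ ≤ initLaw v (bad κ J) + initLaw v (seeded κ (3 * J)) := measure_union_le _ _
      _ ≤ ENNReal.ofReal (1 - v.p 2 ^ 16) ^ J +
          ENNReal.ofReal ((2 * ((3 * J : ℕ) : ℝ) + 1) ^ 2 * v.p κ) :=
          add_le_add (bad_prob v (by omega) h02 J) (seeded_prob v (3 * J))
      _ = ENNReal.ofReal ((1 - v.p 2 ^ 16) ^ J + (6 * (J : ℝ) + 1) ^ 2 * v.p κ) := by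
          rw [ENNReal.ofReal_add (by positivity) (by positivity), ENNReal.ofReal_pow h4]
          congr 3
          push_cast
          ring
  exact ENNReal.toReal_le_of_le_ofReal (by
    have h4 : (0 : ℝ) ≤ 1 - v.p 2 ^ 16 := by
      have : v.p 2 ^ 16 ≤ 1 := pow_le_one₀ hp2.le hp21
      linarith
    have hpk := v.pos κ le_rfl
    positivity) h3

end Probability

/-! ### The sequence of parameter vectors -/

section Sequence

/-- Exponents `a₀ = 1`, `a_{i+1} = a_i (|γ_{i+1}| + 35)`. -/
noncomputable def expo (γ : ℕ → ℝ) : ℕ → ℝ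
  | 0 => 1
  | i + 1 => expo γ i * (|γ (i + 1)| + 35)

lemma one_le_expo (γ : ℕ → ℝ) (i : ℕ) : 1 ≤ expo γ i := by
  induction i with
  | zero => exact le_rfl
  | succ i ih =>
    show 1 ≤ expo γ i * (|γ (i + 1)| + 35)
    have := abs_nonneg (γ (i + 1))
    nlinarith

lemma expo_step (γ : ℕ → ℝ) (i : ℕ) :
    γ (i + 1) * expo γ i + 35 * expo γ i ≤ expo γ (i + 1) := by
  show _ ≤ expo γ i * (|γ (i + 1)| + 35)
  have h1 := le_abs_self (γ (i + 1))
  have h2 := one_le_expo γ i
  nlinarith

lemma expo_succ_ge (γ : ℕ → ℝ) (i : ℕ) : 35 * expo γ i ≤ expo γ (i + 1) := by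
  show _ ≤ expo γ i * (|γ (i + 1)| + 35)
  have h1 := abs_nonneg (γ (i + 1))
  have h2 := one_le_expo γ i
  nlinarith

lemma expo_mono (γ : ℕ → ℝ) : Monotone (expo γ) := by
  refine monotone_nat_of_le_succ fun i => ?_
  have h1 := expo_succ_ge γ i
  have h2 := one_le_expo γ i
  linarith

lemma expo_kappa (γ : ℕ → ℝ) {κ : ℕ} (hκ : 3 ≤ κ) : 35 * expo γ 2 ≤ expo γ κ :=
  (expo_succ_ge γ 2).trans (expo_mono γ hκ)

/-- The time scale `s_n = n + 2 κ`. -/
noncomputable def scale (κ n : ℕ) : ℝ := (n : ℝ) + 2 * (κ : ℝ)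

lemma exp_neg_scale_le (κ n : ℕ) : Real.exp (-scale κ n) ≤ 1 / (1 + 2 * (κ : ℝ)) := by
  have h1 : (1 : ℝ) + 2 * κ ≤ Real.exp (scale κ n) := by
    have h2 := Real.add_one_le_exp (scale κ n)
    have h3 : (0 : ℝ) ≤ n := Nat.cast_nonneg n
    unfold scale at h2 ⊢
    linarith
  rw [Real.exp_neg, ← one_div]
  exact one_div_le_one_div_of_le (by positivity) h1

lemma sum_le (κ n : ℕ) (γ : ℕ → ℝ) :
    ∑ j ∈ Finset.range κ, Real.exp (-(expo γ (j + 1) * scale κ n)) ≤ 1 / 2 := by
  have hs : 0 ≤ scale κ n := by unfold scale; positivity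
  have h1 : ∀ j ∈ Finset.range κ,
      Real.exp (-(expo γ (j + 1) * scale κ n)) ≤ 1 / (1 + 2 * (κ : ℝ)) := by
    intro j _
    refine le_trans ?_ (exp_neg_scale_le κ n)
    apply Real.exp_le_exp.mpr
    have := one_le_expo γ (j + 1)
    nlinarith
  refine (Finset.sum_le_card_nsmul _ _ _ h1).trans ?_
  rw [Finset.card_range, nsmul_eq_mul, mul_one_div, div_le_div_iff₀ (by positivity) (by norm_num)]
  linarith

/-- The `n`-th parameter vector: `p_i = exp (-a_i s_n)` for `i ≥ 1` and
`p_0 = 1 - p_1 - ⋯ - p_κ`. -/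
noncomputable def paramSeq (κ : ℕ) (γ : ℕ → ℝ) (n : ℕ) : ParamVec κ where
  p i := if i = 0 then
      1 - ∑ j ∈ Finset.range κ, Real.exp (-(expo γ (j + 1) * scale κ n))
    else Real.exp (-(expo γ i * scale κ n))
  pos i _ := by
    split_ifs
    · have := sum_le κ n γ
      linarith
    · exact Real.exp_pos _
  sum_one := by
    rw [Finset.sum_range_succ']
    simp

lemma paramSeq_of_pos {κ : ℕ} {γ : ℕ → ℝ} {n i : ℕ} (hi : i ≠ 0) :
    (paramSeq κ γ n).p i = Real.exp (-(expo γ i * scale κ n)) := by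
  simp [paramSeq, hi]

lemma paramSeq_zero_ge (κ : ℕ) (γ : ℕ → ℝ) (n : ℕ) : 1 / 2 ≤ (paramSeq κ γ n).p 0 := by
  have := sum_le κ n γ
  simp only [paramSeq, if_true]
  linarith

lemma tendsto_scale (κ : ℕ) : Tendsto (fun n => Real.exp (-scale κ n)) atTop (𝓝 0) := by
  refine Real.tendsto_exp_neg_atTop_nhds_zero.comp ?_
  unfold scale
  exact tendsto_atTop_add_const_right _ _ tendsto_natCast_atTop_atTop

lemma prob_bound {κ : ℕ} (hκ : 3 ≤ κ) (γ : ℕ → ℝ) (n : ℕ) :
    (initLaw (paramSeq κ γ n)).real (originTerminal κ) ≤ 170 * Real.exp (-scale κ n) := by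
  set v := paramSeq κ γ n with hv
  set s := scale κ n with hs
  have hs0 : 0 ≤ s := by rw [hs]; unfold scale; positivity
  set e := expo γ 2 with he
  have he1 : 1 ≤ e := one_le_expo γ 2
  have hp2 : v.p 2 = Real.exp (-(e * s)) := paramSeq_of_pos (by norm_num)
  have hpk : v.p κ ≤ Real.exp (-(35 * e * s)) := by
    rw [hv, paramSeq_of_pos (by omega)]
    apply Real.exp_le_exp.mpr
    have := mul_le_mul_of_nonneg_right (expo_kappa γ hκ) hs0
    linarith
  have h02 : v.p 2 ≤ v.p 0 := by
    refine le_trans ?_ (paramSeq_zero_ge κ γ n)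
    rw [hp2]
    have h1 : Real.exp (-(e * s)) ≤ Real.exp (-s) := Real.exp_le_exp.mpr (by nlinarith)
    have h2 := exp_neg_scale_le κ n
    have h3 : 1 / (1 + 2 * (κ : ℝ)) ≤ 1 / 2 := by
      apply one_div_le_one_div_of_le (by norm_num)
      have : (3 : ℝ) ≤ κ := by exact_mod_cast hκ
      linarith
    linarith
  set x := Real.exp (-(e * s)) with hx
  have hx0 : 0 < x := Real.exp_pos _
  have hx1 : x ≤ 1 := by
    rw [hx]; apply Real.exp_le_one_iff.mpr; nlinarith
  set J := ⌈(x ^ 17)⁻¹⌉₊ with hJ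
  have hJ1 : (x ^ 17)⁻¹ ≤ (J : ℝ) := Nat.le_ceil _
  have hx17 : x ^ 17 ≤ 1 := pow_le_one₀ hx0.le hx1
  have hinv : 1 ≤ (x ^ 17)⁻¹ := (one_le_inv₀ (by positivity)).mpr hx17
  have hJ2 : (J : ℝ) ≤ 2 * (x ^ 17)⁻¹ := by
    have := (Nat.ceil_lt_add_one (show 0 ≤ (x ^ 17)⁻¹ by positivity)).le
    linarith
  have hkey := key_bound v hκ h02 J
  rw [hp2] at hkey
  -- first term
  have hfirst : (1 - x ^ 16) ^ J ≤ Real.exp (-s) := by
    have h1 : 1 - x ^ 16 ≤ Real.exp (-(x ^ 16)) := by
      have := Real.add_one_le_exp (-(x ^ 16))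
      linarith
    have h0 : 0 ≤ 1 - x ^ 16 := by
      have : x ^ 16 ≤ 1 := pow_le_one₀ hx0.le hx1
      linarith
    calc (1 - x ^ 16) ^ J ≤ Real.exp (-(x ^ 16)) ^ J := pow_le_pow_left₀ h0 h1 J
      _ = Real.exp (-(J * x ^ 16)) := by rw [← Real.exp_nat_mul]; ring_nf
      _ ≤ Real.exp (-s) := by
          apply Real.exp_le_exp.mpr
          have h2 : (x ^ 17)⁻¹ * x ^ 16 ≤ J * x ^ 16 :=
            mul_le_mul_of_nonneg_right hJ1 (by positivity)
          have h3 : (x ^ 17)⁻¹ * x ^ 16 = x⁻¹ := by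
            field_simp
          have h4 : x⁻¹ = Real.exp (e * s) := by rw [hx, ← Real.exp_neg, neg_neg]
          have h5 := Real.add_one_le_exp (e * s)
          rw [h3, h4] at h2
          nlinarith
  -- second term
  have hsecond : (6 * (J : ℝ) + 1) ^ 2 * v.p κ ≤ 169 * Real.exp (-s) := by
    have h1 : 6 * (J : ℝ) + 1 ≤ 13 * (x ^ 17)⁻¹ := by linarith
    have h2 : (6 * (J : ℝ) + 1) ^ 2 ≤ (13 * (x ^ 17)⁻¹) ^ 2 :=
      pow_le_pow_left₀ (by positivity) h1 2
    have h3 : v.p κ ≤ x ^ 35 := by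
      refine hpk.trans (le_of_eq ?_)
      rw [hx, ← Real.exp_nat_mul]
      congr 1
      push_cast
      ring
    have hpk0 := v.pos κ le_rfl
    calc (6 * (J : ℝ) + 1) ^ 2 * v.p κ ≤ (13 * (x ^ 17)⁻¹) ^ 2 * x ^ 35 :=
          mul_le_mul h2 h3 hpk0.le (by positivity)
      _ = 169 * x := by field_simp; norm_num
      _ ≤ 169 * Real.exp (-s) := by
          have : x ≤ Real.exp (-s) := Real.exp_le_exp.mpr (by nlinarith)
          linarith
  linarith

end Sequence

/-- **Q1 fails for every `κ ≥ 3`.**  Whatever the powers `γ₂, …, γ_κ`, there is a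
sequence of parameter vectors with `p₁ → 0` and `p_i ≪ p_{i-1} ^ γ_i` for `i = 2, …, κ` along
which the probability that the origin is eventually in state `κ` tends to `0`. -/
theorem result (κ : ℕ) (hκ : 3 ≤ κ) (γ : ℕ → ℝ) :
    ∃ v : ℕ → ParamVec κ,
      Tendsto (fun n => (v n).p 1) atTop (𝓝 0) ∧
      (∀ i, 2 ≤ i → i ≤ κ →
        Tendsto (fun n => (v n).p i / (v n).p (i - 1) ^ γ i) atTop (𝓝 0)) ∧
      Tendsto (fun n => (initLaw (v n)).real (originTerminal κ)) atTop (𝓝 0) := by
  refine ⟨paramSeq κ γ, ?_, ?_, ?_⟩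
  · refine squeeze_zero (fun n => ((paramSeq κ γ n).pos 1 (by omega)).le) (fun n => ?_)
      (tendsto_scale κ)
    rw [paramSeq_of_pos one_ne_zero]
    apply Real.exp_le_exp.mpr
    have h1 := one_le_expo γ 1
    have h2 : 0 ≤ scale κ n := by unfold scale; positivity
    nlinarith
  · intro i hi2 hiκ
    obtain ⟨k, rfl⟩ : ∃ k, i = k + 1 := ⟨i - 1, by omega⟩
    refine squeeze_zero (fun n => ?_) (fun n => ?_) (tendsto_scale κ)
    · exact div_nonneg ((paramSeq κ γ n).pos _ hiκ).le
        (Real.rpow_nonneg ((paramSeq κ γ n).pos _ (by omega)).le _)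
    · rw [Nat.add_sub_cancel, paramSeq_of_pos (by omega), paramSeq_of_pos (by omega),
        ← Real.exp_mul, ← Real.exp_sub]
      apply Real.exp_le_exp.mpr
      have h1 := expo_step γ k
      have h2 : 0 ≤ scale κ n := by unfold scale; positivity
      have h3 := one_le_expo γ k
      have h4 := mul_le_mul_of_nonneg_right h1 h2
      nlinarith
  · refine squeeze_zero (fun n => measureReal_nonneg) (fun n => prob_bound hκ γ n) ?_
    simpa using (tendsto_scale κ).const_mul 170

/-- The assertion of Q1 for a given `κ`. -/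
def PowersSuffice (κ : ℕ) : Prop :=
  ∃ γ : ℕ → ℝ, (∀ i, 2 ≤ i → i ≤ κ → 0 < γ i) ∧
    ∀ v : ℕ → ParamVec κ,
      Tendsto (fun n => (v n).p 1) atTop (𝓝 0) →
      (∀ i, 2 ≤ i → i ≤ κ →
        Tendsto (fun n => (v n).p i / (v n).p (i - 1) ^ γ i) atTop (𝓝 0)) →
      Tendsto (fun n => (initLaw (v n)).real (originTerminal κ)) atTop (𝓝 1)

/-- In particular the assertion of Q1 is false for every `κ ≥ 3`. -/
theorem not_powersSuffice (κ : ℕ) (hκ : 3 ≤ κ) : ¬ PowersSuffice κ := by
  rintro ⟨γ, _, h⟩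
  obtain ⟨v, h1, h2, h3⟩ := result κ hκ γ
  exact zero_ne_one (tendsto_nhds_unique h3 (h v h1 h2))

/-- Sanity check: the event that the origin is eventually in state `κ` is measurable. -/
theorem measurableSet_originTerminal (κ : ℕ) : MeasurableSet (originTerminal κ) := by
  have hstep : ∀ t x, Measurable fun ξ : Config κ => evolve ξ t x := by
    intro t
    induction t with
    | zero => intro x; exact measurable_pi_apply x
    | succ t ih =>
      intro x
      have hloc : ∃ F : (({x} ∪ nbrs x : Finset (ℤ × ℤ)) → Fin (κ + 1)) → Fin (κ + 1),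
          ∀ ξ : Config κ, step ξ x = F (fun y => ξ y) := by
        classical
        refine ⟨fun η => step (fun y => if h : y ∈ ({x} ∪ nbrs x : Finset (ℤ × ℤ))
          then η ⟨y, h⟩ else 0) x, fun ξ => ?_⟩
        have hx : (if h : x ∈ ({x} ∪ nbrs x : Finset (ℤ × ℤ)) then ξ x else 0) = ξ x := by
          simp
        have hN : ∀ j, numIn (fun y => if h : y ∈ ({x} ∪ nbrs x : Finset (ℤ × ℤ))
            then ξ y else 0) j x = numIn ξ j x := by
          intro j
          unfold numIn
          congr 1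
          refine Finset.filter_congr fun y hy => ?_
          have hmem : y ∈ ({x} ∪ nbrs x : Finset (ℤ × ℤ)) := Finset.mem_union_right _ hy
          dsimp only
          rw [dif_pos hmem]
        unfold step
        simp only [hN, hx]
      obtain ⟨F, hF⟩ := hloc
      have hm : Measurable F := measurable_of_countable F
      have : (fun ξ : Config κ => evolve ξ (t + 1) x) =
          fun ξ => F (fun y => evolve ξ t y) := by
        funext ξ
        rw [evolve_succ, hF]
      rw [this]
      exact hm.comp (measurable_pi_lambda _ fun y => ih y)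
  have : originTerminal κ = ⋃ t : ℕ, (fun ξ : Config κ => evolve ξ t (0, 0)) ⁻¹'
      {s | (s : ℕ) = κ} := by
    ext ξ
    simp [originTerminal]
  rw [this]
  exact MeasurableSet.iUnion fun t => hstep t (0, 0) (measSet _)

end Pool.Agent.Results.MP_3d955a_pr.NoPowersFromThree
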